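import Pool.Agent.Helper73.DC.St2

set_option autoImplicit false

/-! Project DC (MP_26f0da_lc), module L3: bounded sums, quantifiers and search. -/

namespace Pool.Agent.Helper69.DC

open Pool.Agent.Helper73.DC
open Finset
open scoped Classical

variable {α : Type} [Fintype α]

private theorem sumL3 (T H : VF α) (hT : E2 T) (hH : E2 H) :
    E2 (fun w v => ∑ i ∈ range (H w v), T w (scons i v)) := by
  obtain ⟨K, c, hK⟩ := hT.poly
  let r : ℕ → ℕ := fun i => match i with
    | 0 => 0
    | i + 1 => i + 2
  have hstep : E2 (fun w u => u 1 + T w (fun i => u (r i))) := (E2.get 1).add (hT.rename r)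
  have key : ∀ w v y, prec (fun _ _ => 0) (fun w u => u 1 + T w (fun i => u (r i))) w v y =
      ∑ i ∈ range y, T w (scons i v) := by
    intro w v y
    induction y with
    | zero => rfl
    | succ y ih =>
      rw [Finset.sum_range_succ, ← ih]
      simp only [prec, scons]
      congr 2
      funext i
      cases i <;> rfl
  have hB : E2 (fun w v => H w v * (w.length + H w v + sumK K v + 2) ^ c) :=
    hH.mul ((((E2.len.add hH).add (E2.fsum (range K) (fun i _ v => v i) (fun i _ => E2.get i))).add
      (E2.const 2)).powc c)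
  have hle : ∀ (K i : ℕ) (v : ℕ → ℕ), sumK K (scons i v) ≤ i + sumK K v := by
    intro K i v
    rw [← sumK_scons]
    exact sumK_mono (Nat.le_succ K) _
  have res := E2.brec (F := fun _ _ => 0) E2.zero hstep hH hB (by
    intro w v y hy
    rw [key]
    calc ∑ i ∈ range y, T w (scons i v) ≤ ∑ _i ∈ range y, (w.length + H w v + sumK K v + 2) ^ c := by
          refine Finset.sum_le_sum fun i hi => (hK w _).trans (Nat.pow_le_pow_left ?_ c)
          have h1 := Finset.mem_range.1 hi
          have h2 := hle K i v
          omega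
      _ = y * (w.length + H w v + sumK K v + 2) ^ c := by simp
      _ ≤ H w v * (w.length + H w v + sumK K v + 2) ^ c := Nat.mul_le_mul_right _ hy)
  have e : (fun w v => prec (fun _ _ => 0) (fun w u => u 1 + T w (fun i => u (r i))) w v (H w v)) =
      (fun w v => ∑ i ∈ range (H w v), T w (scons i v)) := by
    funext w v
    exact key w v _
  rw [e] at res
  exact res

private theorem allL3 (h2 : StL2) (p : List α → (ℕ → ℕ) → Prop) (H : VF α) (hp : E2P p) (hH : E2 H) :
    E2P (fun w v => ∀ i < H w v, p w (scons i v)) := by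
  have h3 : E2P (fun w v => ¬ p w v) := (h2.2.1 p p hp hp).1
  have h4 := sumL3 _ H h3 hH
  have h5 := (h2.1 _ _ h4 (E2.const 0)).2.2
  unfold E2P at h5 ⊢
  convert h5 using 4
  simp only [Finset.sum_eq_zero_iff, Finset.mem_range, ite_eq_right_iff, one_ne_zero, imp_false, not_not]

theorem mL3 : StL1 → StL2 → StL3 := by
  intro _ h2 α _
  refine ⟨sumL3, fun p H hp hH => ⟨allL3 h2 p H hp hH, ?_, ?_⟩⟩
  · have h3 : E2P (fun w v => ¬ p w v) := (h2.2.1 p p hp hp).1
    have h4 := allL3 h2 _ H h3 hH
    have h5 := (h2.2.1 _ _ h4 h4).1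
    unfold E2P at h5 ⊢
    convert h5 using 4
    push Not
    rfl
  · let r : ℕ → ℕ := fun i => match i with
      | 0 => 0
      | i + 1 => i + 2
    have h3 : E2P (fun (w : List α) u => p w (fun i => u (r i))) := E2.rename hp r
    have h4 := (h2.2.1 _ _ h3 h3).1
    have h5 := allL3 h2 _ (fun _ u => u 0 + 1) h4 (E2.succ _ (E2.get 0))
    have h6 := sumL3 _ H h5 hH
    have hfin : (fun w v => bmin (H w v) (fun i => p w (scons i v))) =
        (fun (w : List α) v => ∑ j ∈ range (H w v),
          (if ∀ i < (scons j v 0) + 1, ¬ p w (fun k => scons i (scons j v) (r k)) then 1 else 0)) := by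
      funext w v
      unfold bmin
      refine Finset.sum_congr rfl fun j _ => ?_
      have hiff : (∀ i < j + 1, ¬ p w (scons i v)) ↔
          (∀ i < (scons j v 0) + 1, ¬ p w (fun k => scons i (scons j v) (r k))) := by
        refine forall_congr' fun i => ?_
        have e : (fun k => scons i (scons j v) (r k)) = scons i v := by
          funext k
          cases k <;> rfl
        rw [e]
        exact Iff.rfl
      by_cases hc : ∀ i < j + 1, ¬ p w (scons i v)
      · rw [if_pos hc, if_pos (hiff.1 hc)]
      · rw [if_neg hc, if_neg (fun h => hc (hiff.2 h))]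
    rw [hfin]
    convert h6 using 5

end Pool.Agent.Helper69.DC
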