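import Pool.Agent.Helper73.DC.St2

set_option autoImplicit false

/-! Project DC (MP_26f0da_lc), module L4: division and remainder. -/

namespace Pool.Agent.Helper69.DC

open Pool.Agent.Helper73.DC
open Finset
open scoped Classical

theorem mL4 : StL1 → StL2 → StL3 → StL4 := by
  intro h1 h2 h3 α _ F G hF hG
  have hdiv : E2 (fun w v => F w v / G w v) := by
    have a1 : E2 (fun (w : List α) u => (u 0 + 1) * G w (fun i => u (i + 1))) :=
      (E2.succ _ (E2.get 0)).mul hG.sh1
    have a2 := (h2.1 _ _ a1 hF.sh1).1
    have a3 := h3.1 _ F a2 hF
    have a4 := (h2.1 _ _ hG (E2.const 0)).2.2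
    have a5 := h2.2.2 _ _ _ a4 (E2.const 0) a3
    have hfin : (fun w v => F w v / G w v) = (fun (w : List α) v => if G w v = (0 : ℕ) then 0 else
        ∑ i ∈ range (F w v), (if (scons i v 0 + 1) * G w (fun k => scons i v (k + 1)) ≤
          F w (fun k => scons i v (k + 1)) then 1 else 0)) := by
      funext w v
      by_cases h0 : G w v = 0
      · rw [if_pos h0, h0, Nat.div_zero]
      · rw [if_neg h0]
        have e : ∀ i ∈ range (F w v), (if (scons i v 0 + 1) * G w (fun k => scons i v (k + 1)) ≤
            F w (fun k => scons i v (k + 1)) then 1 else 0) = if i < F w v / G w v then 1 else 0 := by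
          intro i _
          have hi : (scons i v 0 + 1) * G w (fun k => scons i v (k + 1)) ≤
              F w (fun k => scons i v (k + 1)) ↔ i < F w v / G w v := by
            show (i + 1) * G w v ≤ F w v ↔ i < F w v / G w v
            rw [← Nat.le_div_iff_mul_le (Nat.pos_of_ne_zero h0)]
            exact Nat.succ_le_iff
          by_cases hc : i < F w v / G w v
          · rw [if_pos hc, if_pos (hi.2 hc)]
          · rw [if_neg hc, if_neg (fun h => hc (hi.1 h))]
        rw [Finset.sum_congr rfl e, Finset.sum_boole]
        have e2 : (range (F w v)).filter (fun i => i < F w v / G w v) = range (F w v / G w v) := by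
          ext i
          simp only [Finset.mem_filter, Finset.mem_range]
          have := Nat.div_le_self (F w v) (G w v)
          omega
        rw [e2]
        simp
    rw [hfin]
    refine Eq.mp (congrArg E2 ?_) a5
    funext w v
    refine ite_congr rfl (fun _ => rfl) (fun _ => Finset.sum_congr rfl fun i _ => ?_)
    exact ite_congr rfl (fun _ => rfl) (fun _ => rfl)
  refine ⟨hdiv, ?_⟩
  have b1 := (h1 F _ hF (hG.mul hdiv)).1
  convert b1 using 3 with w v
  have := Nat.div_add_mod (F w v) (G w v)
  omega

end Pool.Agent.Helper69.DC
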