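import Pool.Agent.Helper73.DC.St2

set_option autoImplicit false

/-! Project DC (MP_26f0da_lc), module L5: truncated powers, digits, binary logarithm. -/

namespace Pool.Agent.Helper69.DC

open Pool.Agent.Helper73.DC
open Finset
open scoped Classical

variable {α : Type} [Fintype α]

private theorem pw_zero (cap b : ℕ) : pw cap b 0 = 1 := by
  unfold pw
  rw [pow_zero]
  exact min_eq_left (by omega)

private theorem pw_succ (cap b e : ℕ) : pw cap b (e + 1) = min (pw cap b e * b) (cap + 1) := by
  unfold pw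
  rcases Nat.le_total (b ^ e) (cap + 1) with h | h
  · rw [min_eq_left h, pow_succ]
  · rw [min_eq_right h]
    rcases Nat.eq_zero_or_pos b with hb | hb
    · subst hb
      simp
    · have h1 : cap + 1 ≤ b ^ (e + 1) := h.trans (Nat.pow_le_pow_right hb (Nat.le_succ e))
      have h2 : cap + 1 ≤ (cap + 1) * b := Nat.le_mul_of_pos_right _ hb
      rw [min_eq_right h1, min_eq_right h2]

private theorem pwL5 (h1 : StL1) (C G H : VF α) (hC : E2 C) (hG : E2 G) (hH : E2 H) :
    E2 (fun w v => pw (C w v) (G w v) (H w v)) := by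
  have hstep : E2 (fun (w : List α) u => min (u 1 * G w (fun i => u (i + 2))) (C w (fun i => u (i + 2)) + 1)) :=
    (h1 _ _ ((E2.get 1).mul hG.sh2) (E2.succ _ hC.sh2)).2.1
  have key : ∀ w v y, prec (fun _ _ => 1)
      (fun (w : List α) u => min (u 1 * G w (fun i => u (i + 2))) (C w (fun i => u (i + 2)) + 1)) w v y =
      pw (C w v) (G w v) y := by
    intro w v y
    induction y with
    | zero => exact (pw_zero _ _).symm
    | succ y ih =>
      rw [pw_succ, ← ih]
      rfl
  have res := E2.brec (F := fun _ _ => 1) (E2.const 1) hstep hH (E2.succ _ hC) (by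
    intro w v y _
    rw [key]
    exact min_le_right _ _)
  have e : (fun w v => prec (fun _ _ => 1)
      (fun (w : List α) u => min (u 1 * G w (fun i => u (i + 2))) (C w (fun i => u (i + 2)) + 1)) w v (H w v)) =
      (fun w v => pw (C w v) (G w v) (H w v)) := by
    funext w v
    exact key w v _
  rw [e] at res
  exact res

private theorem dg_eq (B x i : ℕ) : dg B x i = x / pw x B i % B := by
  unfold dg pw
  rcases Nat.le_total (B ^ i) (x + 1) with h | h
  · rw [min_eq_left h]
  · rw [min_eq_right h, Nat.div_eq_of_lt (by omega : x < B ^ i), Nat.div_eq_of_lt (Nat.lt_succ_self x)]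

private theorem dgL5 (h1 : StL1) (h4 : StL4) (F G H : VF α) (hF : E2 F) (hG : E2 G) (hH : E2 H) :
    E2 (fun w v => dg (F w v) (G w v) (H w v)) := by
  have a1 := (h4 _ _ hG (pwL5 h1 G F H hG hF hH)).1
  have a2 := (h4 _ _ a1 hF).2
  have e : (fun w v => dg (F w v) (G w v) (H w v)) =
      (fun w v => G w v / pw (G w v) (F w v) (H w v) % F w v) := by
    funext w v
    exact dg_eq _ _ _
  rw [e]
  exact a2

private theorem log_eq (x : ℕ) : Nat.log 2 x = ∑ i ∈ range x, (if pw x 2 (i + 1) ≤ x then 1 else 0) := by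
  rcases Nat.eq_zero_or_pos x with h0 | h0
  · subst h0
    simp
  · have e : ∀ i ∈ range x, (if pw x 2 (i + 1) ≤ x then 1 else 0) = if i < Nat.log 2 x then 1 else 0 := by
      intro i _
      have hi : pw x 2 (i + 1) ≤ x ↔ i < Nat.log 2 x := by
        unfold pw
        rw [min_le_iff]
        constructor
        · rintro (h | h)
          · exact Nat.le_log_of_pow_le (by norm_num) h
          · omega
        · intro h
          exact Or.inl (Nat.pow_le_of_le_log h0.ne' h)
      by_cases hc : i < Nat.log 2 x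
      · rw [if_pos hc, if_pos (hi.2 hc)]
      · rw [if_neg hc, if_neg (fun h => hc (hi.1 h))]
    rw [Finset.sum_congr rfl e, Finset.sum_boole]
    have e2 : (range x).filter (fun i => i < Nat.log 2 x) = range (Nat.log 2 x) := by
      ext i
      simp only [Finset.mem_filter, Finset.mem_range]
      have := Nat.log_le_self 2 x
      omega
    rw [e2]
    simp

private theorem logL5 (h1 : StL1) (h2 : StL2) (h3 : StL3) (F : VF α) (hF : E2 F) :
    E2 (fun w v => Nat.log 2 (F w v)) := by
  have a1 := pwL5 h1 (fun w v => F w (fun i => v (i + 1))) (fun _ _ => 2) (fun _ v => v 0 + 1) hF.sh1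
    (E2.const 2) (E2.succ _ (E2.get 0))
  have a2 := (h2.1 _ _ a1 hF.sh1).1
  have a3 := h3.1 _ F a2 hF
  refine Eq.mp (congrArg E2 ?_) a3
  funext w v
  rw [log_eq]
  refine Finset.sum_congr rfl fun i _ => ?_
  exact ite_congr rfl (fun _ => rfl) (fun _ => rfl)

theorem mL5 : StL1 → StL2 → StL3 → StL4 → StL5 := by
  intro h1 h2 h3 h4 α _ F G H D C hF hG hH hD hC
  refine ⟨pwL5 h1 F G H hF hG hH, dgL5 h1 h4 F G H hF hG hH, ?_, logL5 h1 h2 h3 F hF⟩
  unfold sdc
  have a1 := dgL5 h1 h4 F G H hF hG hH
  have a2 := pwL5 h1 C F H hC hF hH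
  exact ((h1 _ _ hG (a1.mul a2)).1).add (hD.mul a2)

end Pool.Agent.Helper69.DC
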