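import Pool.Agent.Helper73.DC.St1

set_option autoImplicit false

/-! Project DC (MP_26f0da_lc), module TM: counter machines are simulated by Turing machines. -/

namespace Pool.Agent.Helper69.DC

open Pool.Agent.Helper73.DC

/-- the invariant of the simulation -/
private def Inv {α : Type} (M : CM α) (w : List α) (N : ℕ) (d : CCfg M.m M.Lab) (c : (tmOf M).Cfg) : Prop :=
  c.q = (d.l, Ph.st) ∧ c.pos = d.pos ∧ d.pos ≤ w.length + 1 ∧ (∀ t, c.hd t = 0) ∧
    ∀ t : Fin M.m, ∃ ll, Rep ll (c.tp t) (d.cnt t) ∧ (ll = 0 ∨ 2 ^ (ll - 1) ≤ N)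

private theorem rb_mono {α : Type} {M : OTM α} {w : List α} {b b' : ℕ} (h : b ≤ b') {c c' : M.Cfg}
    (hr : M.RB w b c c') : M.RB w b' c c' := by
  induction hr with
  | refl => exact Relation.ReflTransGen.refl
  | tail _ h2 ih => exact ih.tail ⟨h2.1, fun t => lt_of_lt_of_le (h2.2 t) h⟩

private theorem rb_reaches {α : Type} {M : OTM α} {w : List α} {b : ℕ} {c c' : M.Cfg}
    (hr : M.RB w b c c') : M.Reaches w c c' := by
  induction hr with
  | refl => exact Relation.ReflTransGen.refl
  | tail _ h2 ih => exact ih.tail h2.1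

private theorem det {α : Type} {M : OTM α} {w : List α} {b : ℕ} {a c : M.Cfg}
    (hr : M.RB w b a c) (hc : M.step w c = none) : ∀ e : M.Cfg, M.Reaches w a e →
    e = a ∨ ∀ t, e.hd t < b := by
  induction hr using Relation.ReflTransGen.head_induction_on with
  | refl =>
    intro e he
    rcases Relation.ReflTransGen.cases_head he with h | ⟨f, h, -⟩
    · exact Or.inl h.symm
    · rw [hc] at h
      exact absurd h (by simp)
  | head h1 _ ih =>
    intro e he
    rcases Relation.ReflTransGen.cases_head he with h | ⟨f, h, h'⟩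
    · exact Or.inl h.symm
    · have h2 := h1.1
      rw [h2] at h
      have h3 := Option.some.inj h
      subst h3
      rcases ih e h' with h4 | h4
      · rw [h4]
        exact Or.inr h1.2
      · exact Or.inr h4

private theorem step_sim (hTI : StTI) (hTD : StTD) {α : Type} (M : CM α) (w : List α) (N b : ℕ)
    (hNb : ∀ ll, 2 ^ (ll - 1) ≤ N → ll + 2 ≤ b) (hb : 2 ≤ b)
    {d d' : CCfg M.m M.Lab} {c : (tmOf M).Cfg} (hI : Inv M w N d c) (hs : M.step w d = some d')
    (hd' : ∀ i, d'.cnt i ≤ N) : ∃ c', (tmOf M).RB w b c c' ∧ Inv M w N d' c' := by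
  obtain ⟨hq, hp, hpw, hh, ht⟩ := hI
  rw [CM.step] at hs
  rcases hins : M.ins d.l with _ | I
  · rw [hins] at hs
    simp at hs
  rw [hins] at hs
  simp only [Option.map_some, Option.some.injEq] at hs
  cases I with
  | inc i l' =>
    simp only [Ins.apply] at hs
    obtain ⟨ll, hR, hl⟩ := ht i
    obtain ⟨c', ll', h1, h2, h3, h4, h5, h6, h7⟩ := hTI M w d.l l' i ll (d.cnt i) c hins hq hh hR
    refine ⟨c', rb_mono ?_ h1, ?_⟩
    · rcases hl with hl | hl
      · omega
      · exact hNb ll hl
    · subst hs
      refine ⟨h2, ?_, hpw, h4, fun t => ?_⟩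
      · rw [h3, hp]
        exact min_eq_left hpw
      · by_cases hti : t = i
        · subst hti
          refine ⟨ll', ?_, ?_⟩
          · simpa using h6
          · have hcb := hd' t
            simp only [Function.update_self] at hcb
            rcases h7 with h7 | ⟨h7, h8⟩
            · rw [h7]; exact hl
            · right
              rw [h7, Nat.add_sub_cancel]
              omega
        · obtain ⟨l2, hR2, hl2⟩ := ht t
          refine ⟨l2, ?_, hl2⟩
          rw [h5 t hti]
          simpa [Function.update_of_ne hti] using hR2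
  | dec i l0 l1 =>
    simp only [Ins.apply] at hs
    obtain ⟨ll, hR, hl⟩ := ht i
    obtain ⟨c', h1, h2, h3, h4, h5, h6⟩ := hTD M w d.l l0 l1 i ll (d.cnt i) c hins hq hh hR
    refine ⟨c', rb_mono ?_ h1, ?_⟩
    · rcases hl with hl | hl
      · omega
      · exact hNb ll hl
    · subst hs
      refine ⟨h2, ?_, hpw, h4, fun t => ?_⟩
      · rw [h3, hp]
        exact min_eq_left hpw
      · by_cases hti : t = i
        · subst hti
          refine ⟨ll, ?_, hl⟩
          simpa using h6
        · obtain ⟨l2, hR2, hl2⟩ := ht t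
          refine ⟨l2, ?_, hl2⟩
          rw [h5 t hti]
          simpa [Function.update_of_ne hti] using hR2
  | mv dd l =>
    simp only [Ins.apply] at hs
    subst hs
    refine ⟨{ q := (l, Ph.st), pos := min (mvN dd c.pos) (w.length + 1), hd := c.hd, tp := c.tp },
      Relation.ReflTransGen.single ⟨?_, fun t => ?_⟩, rfl, ?_, ?_, hh, ht⟩
    · rw [OTM.step, hq]
      simp only [tmOf, hins, mvN, Function.update_eq_self]
    · show c.hd t < b
      rw [hh t]
      omega
    · show min (mvN dd c.pos) (w.length + 1) = min (mvN dd d.pos) (w.length + 1)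
      rw [hp]
    · exact min_le_right _ _
  | rd f =>
    simp only [Ins.apply] at hs
    subst hs
    refine ⟨{ q := (f (symAt w c.pos), Ph.st), pos := min (mvN Mv.S c.pos) (w.length + 1), hd := c.hd, tp := c.tp },
      Relation.ReflTransGen.single ⟨?_, fun t => ?_⟩, ?_, ?_, hpw, hh, ht⟩
    · rw [OTM.step, hq]
      simp only [tmOf, hins, mvN, Function.update_eq_self]
    · show c.hd t < b
      rw [hh t]
      omega
    · show (f (symAt w c.pos), Ph.st) = (f (symAt w d.pos), Ph.st)
      rw [hp]
    · show min (mvN Mv.S c.pos) (w.length + 1) = d.pos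
      rw [hp]
      exact min_eq_left hpw

theorem mTM : StTI → StTD → StTM := by
  intro hTI hTD α M L B S C hM hB
  refine ⟨tmOf M, C + 3, fun w => ?_⟩
  obtain ⟨⟨d, hd, hstop, hacc⟩, hcnt⟩ := hM w
  set b := C * S w.length + C + 3 with hb
  have hNb : ∀ ll, 2 ^ (ll - 1) ≤ B w.length → ll + 2 ≤ b := by
    intro ll h
    have h1 := h.trans (hB w.length)
    have h2 := (Nat.pow_le_pow_iff_right (by norm_num : 1 < 2)).1 h1
    omega
  have key : ∀ e, M.Reaches w M.init e → ∃ c, (tmOf M).RB w b (tmOf M).init c ∧ Inv M w (B w.length) e c := by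
    intro e he
    induction he with
    | refl =>
      refine ⟨(tmOf M).init, Relation.ReflTransGen.refl, rfl, rfl, Nat.zero_le _, fun _ => rfl, fun t => ⟨0, ?_, Or.inl rfl⟩⟩
      refine ⟨fun _ => false, fun j => ?_, ?_⟩
      · rw [if_neg (by omega)]
        rfl
      · simp [CM.init]
    | tail h1 h2 ih =>
      obtain ⟨c, hc, hI⟩ := ih
      obtain ⟨c', hc', hI'⟩ := step_sim hTI hTD M w (B w.length) b hNb (by omega) hI h2
        (hcnt _ (Relation.ReflTransGen.tail h1 h2))
      exact ⟨c', hc.trans hc', hI'⟩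
  obtain ⟨c, hc, hI⟩ := key d hd
  have hstep : (tmOf M).step w c = none := by
    have hins : M.ins d.l = none := by
      rw [CM.step] at hstop
      simpa using hstop
    rw [OTM.step, hI.1]
    simp only [tmOf, hins]
  refine ⟨⟨c, rb_reaches hc, hstep, ?_⟩, fun e he t => ?_⟩
  · rw [hI.1]
    exact hacc
  · have hbb : b ≤ (C + 3) * S w.length + (C + 3) := by
      rw [hb, add_mul]
      omega
    rcases det hc hstep e he with h | h
    · rw [h]
      show (0 : ℕ) < (C + 3) * S w.length + (C + 3)
      omega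
    · exact lt_of_lt_of_le (h t) hbb

end Pool.Agent.Helper69.DC
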